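import Pool.Graph.R_pool_sql_team_39128cda.Lib.helper8_.Kneser
import Pool.Graph.R_pool_sql_team_seeded_b0a926ef.R53.RestSum

/-! Sumsets in cyclic groups of order `p (p + 2)`: the unrestricted sumset. -/

set_option autoImplicit false

namespace Pool.Agent.H90.TP

open Finset R53.RestSum Pool.Agent.Lib.helper8.Kneser
open scoped Pointwise

variable {G : Type} [AddCommGroup G] [Fintype G] [DecidableEq G]

theorem fold_add' (B : Finset G) (i : ℕ) : hfold B (i + 1) = hfold B i + B := by
  ext y
  rw [mem_hfold_succ, Finset.mem_add]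

theorem st_mono (A : Finset G) (i k : ℕ) {t : G} (ht : t ∈ st (hfold A i)) :
    t ∈ st (hfold A (i + k)) := by
  induction k with
  | zero => exact ht
  | succ k ih =>
    rw [mem_st] at ih ⊢
    intro y hy
    rw [← Nat.add_assoc, mem_hfold_succ] at hy
    obtain ⟨x, hx, a, ha, rfl⟩ := hy
    rw [← Nat.add_assoc, mem_hfold_succ]
    exact ⟨t + x, ih x hx, a, ha, by rw [add_assoc]⟩

theorem fold_ne {A : Finset G} (hA : A.Nonempty) : ∀ i : ℕ, (hfold A i).Nonempty
  | 0 => by rw [hfold]; exact ⟨0, Finset.mem_singleton_self _⟩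
  | i + 1 => by
    obtain ⟨x, hx⟩ := fold_ne hA i
    obtain ⟨a, ha⟩ := hA
    exact ⟨x + a, mem_hfold_succ.2 ⟨x, hx, a, ha, rfl⟩⟩

theorem triv_case {A : Finset G} (hA : A.Nonempty) (h : ℕ)
    (ht : ∀ t ∈ st (hfold A h), t = 0) : ∀ i ≤ h, i * (A.card - 1) + 1 ≤ (hfold A i).card := by
  intro i
  induction i with
  | zero =>
    intro _
    have := Finset.card_pos.2 (fold_ne hA 0)
    simp only [zero_mul, zero_add]
    exact this
  | succ i ih =>
    intro hi
    have h1 := ih (by omega)
    have hk := kneser (hfold A i) A (fold_ne hA i) hA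
    rw [← fold_add'] at hk
    have h2 : (hfold A i).card ≤ (hfold A i + st (hfold A (i + 1))).card :=
      card_le_card (sub_add (st_sub _) _)
    have h3 : A.card ≤ (A + st (hfold A (i + 1))).card := card_le_card (sub_add (st_sub _) _)
    have h4 : (st (hfold A (i + 1))).card ≤ 1 := by
      rw [Finset.card_le_one]
      intro x hx y hy
      have hx' := st_mono A (i + 1) (h - (i + 1)) hx
      have hy' := st_mono A (i + 1) (h - (i + 1)) hy
      rw [show i + 1 + (h - (i + 1)) = h by omega] at hx' hy'
      rw [ht x hx', ht y hy']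
    have h5 := Finset.card_pos.2 hA
    rw [add_mul, one_mul]
    omega

theorem per_case {r : ℕ} (hr : r.Prime) (π : G →+ ZMod r) {A : Finset G} (hA : A.Nonempty) (h : ℕ)
    (hker : ∀ z, π z = 0 → z ∈ st (hfold A h)) (hc : r ≤ h * ((A.image π).card - 1) + 1) :
    hfold A h = univ := by
  haveI : Fact r.Prime := ⟨hr⟩
  have h1 := (cd hr.two_le (A.image π) (hA.image π) h).2
  rw [hr.minFac_eq, min_eq_left hc, R53.RestSum.fold_image] at h1
  have h2 : (hfold A h).image π = univ := by
    apply Finset.eq_univ_of_card
    apply le_antisymm (Finset.card_le_univ _)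
    rw [ZMod.card]
    exact h1
  ext y
  simp only [mem_univ, iff_true]
  have h3 : π y ∈ (hfold A h).image π := by rw [h2]; exact mem_univ _
  rw [mem_image] at h3
  obtain ⟨x, hx, hxy⟩ := h3
  have h4 := mem_st.1 (hker (y - x) (by rw [map_sub, hxy, sub_self])) x hx
  rwa [sub_add_cancel] at h4

theorem nsmul_mem {X : Finset G} {t : G} (ht : t ∈ st X) (k : ℕ) : k • t ∈ st X := by
  induction k with
  | zero => rw [zero_smul]; exact (st_sub X).zero
  | succ k ih => rw [succ_nsmul]; exact (st_sub X).add ih ht

/-- the kernel of `π` is contained in the stabilizer -/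
theorem ker_sub {r s : ℕ} (hr : r.Prime) (hs : s.Prime) (hrs : (s : ZMod r) ≠ 0) (φ : G →+ ZMod r)
    (π : G →+ ZMod s) (hinj : ∀ x y, φ x = φ y → π x = π y → x = y) {X : Finset G} {t : G}
    (ht : t ∈ st X) (hφ : φ t ≠ 0) : ∀ z, π z = 0 → z ∈ st X := by
  haveI : Fact r.Prime := ⟨hr⟩
  haveI : Fact s.Prime := ⟨hs⟩
  have hu : s • t ∈ st X := nsmul_mem ht s
  have h1 : π (s • t) = 0 := by
    rw [map_nsmul, nsmul_eq_mul, CharP.cast_eq_zero, zero_mul]
  have h2 : φ (s • t) ≠ 0 := by
    rw [map_nsmul, nsmul_eq_mul]
    exact mul_ne_zero hrs hφ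
  intro z hz
  have h3 : z = (φ z / φ (s • t)).val • (s • t) := by
    apply hinj
    · rw [map_nsmul, nsmul_eq_mul, ZMod.natCast_val, ZMod.cast_id', id, div_mul_cancel₀ _ h2]
    · rw [hz, map_nsmul, h1, smul_zero]
  rw [h3]
  exact nsmul_mem hu _

/-- the unrestricted sumset is everything -/
theorem full {p : ℕ} (hp : p.Prime) (hq : (p + 2).Prime) (hp3 : 3 ≤ p) (f : G →+ ZMod p)
    (g : G →+ ZMod (p + 2)) (hinj : ∀ x y, f x = f y → g x = g y → x = y)
    (hcard : Fintype.card G = p * (p + 2)) (A : Finset G) (hA : A.card = 2 * p + 2) :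
    hfold A p = univ := by
  haveI : Fact p.Prime := ⟨hp⟩
  haveI : Fact (p + 2).Prime := ⟨hq⟩
  have hAn : A.Nonempty := Finset.card_pos.1 (by omega)
  by_cases ht : ∀ t ∈ st (hfold A p), t = 0
  · exfalso
    have h1 := triv_case hAn p ht p le_rfl
    have h2 := Finset.card_le_univ (hfold A p)
    rw [hcard] at h2
    rw [hA, show 2 * p + 2 - 1 = 2 * p + 1 by omega] at h1
    nlinarith
  · push Not at ht
    obtain ⟨t, ht, ht0⟩ := ht
    by_cases hf : f t = 0
    · have hg : g t ≠ 0 := by
        intro hg
        exact ht0 (hinj t 0 (by rw [hf, map_zero]) (by rw [hg, map_zero]))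
      have hps : ((p : ℕ) : ZMod (p + 2)) ≠ 0 := by
        intro hh
        rw [ZMod.natCast_eq_zero_iff] at hh
        have := Nat.le_of_dvd (by omega) hh
        omega
      apply per_case hp f hAn p
        (ker_sub hq hp hps g f (fun x y h1 h2 => hinj x y h2 h1) ht hg)
      have h5 : A.card ≤ (p + 2) * (A.image f).card := by
        apply Finset.card_le_mul_card_image
        intro c _
        have := Finset.card_le_card_of_injOn (s := A.filter (fun x => f x = c)) (t := univ) g
          (fun _ _ => mem_univ _) (by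
            intro x hx y hy hxy
            rw [Finset.mem_coe, mem_filter] at hx hy
            exact hinj x y (by rw [hx.2, hy.2]) hxy)
        rwa [Finset.card_univ, ZMod.card] at this
      have h6 : 2 ≤ (A.image f).card := by
        by_contra hlt
        have : (A.image f).card ≤ 1 := by omega
        have h7 := Nat.mul_le_mul_left (p + 2) this
        omega
      have h8 : p * 1 ≤ p * ((A.image f).card - 1) := Nat.mul_le_mul_left p (by omega)
      omega
    · have hps : ((p + 2 : ℕ) : ZMod p) ≠ 0 := by
        intro hh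
        rw [ZMod.natCast_eq_zero_iff] at hh
        have h2 : p ∣ 2 := (Nat.dvd_add_right (dvd_refl p)).1 hh
        have := Nat.le_of_dvd (by omega) h2
        omega
      apply per_case hq g hAn p (ker_sub hp hq hps f g hinj ht hf)
      have h5 : A.card ≤ p * (A.image g).card := by
        apply Finset.card_le_mul_card_image
        intro c _
        have := Finset.card_le_card_of_injOn (s := A.filter (fun x => g x = c)) (t := univ) f
          (fun _ _ => mem_univ _) (by
            intro x hx y hy hxy
            rw [Finset.mem_coe, mem_filter] at hx hy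
            exact hinj x y hxy (by rw [hx.2, hy.2]))
        rwa [Finset.card_univ, ZMod.card] at this
      have h6 : 3 ≤ (A.image g).card := by
        by_contra hlt
        have : (A.image g).card ≤ 2 := by omega
        have h7 := Nat.mul_le_mul_left p this
        omega
      have h8 : p * 2 ≤ p * ((A.image g).card - 1) := Nat.mul_le_mul_left p (by omega)
      omega

end Pool.Agent.H90.TP
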